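import Pool.Agent.helper1.UN.SpecU

/-!
# unh:VMX: the Mellin transform in exponential coordinates
-/

set_option autoImplicit false

open NumberField Complex MeasureTheory NumberField.Units NumberField.Units.dirichletUnitTheorem

open scoped Classical

namespace Pool.Agent.UN

theorem VMX_img : Real.exp '' (Set.univ : Set ℝ) = Set.Ioi 0 := by
  rw [Set.image_univ, Real.range_exp]

theorem VMX_pt (f : ℝ → ℂ) (z : ℂ) (t : ℝ) :
    |Real.exp t| • (((Real.exp t : ℝ) : ℂ) ^ (z - 1) • f (Real.exp t)) = cexp (z * t) * f (Real.exp t) := by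
  rw [abs_of_pos (Real.exp_pos t), smul_eq_mul, Complex.real_smul, ← mul_assoc]
  congr 1
  rw [Complex.cpow_def_of_ne_zero (by rw [Complex.ofReal_ne_zero]; exact (Real.exp_pos t).ne'),
    ← Complex.ofReal_log (Real.exp_pos t).le, Real.log_exp, Complex.ofReal_exp, ← Complex.exp_add]
  congr 1
  ring

theorem VMX : VMX_stmt := by
  intro f z
  have hd : ∀ x ∈ (Set.univ : Set ℝ), HasDerivWithinAt Real.exp (Real.exp x) Set.univ x :=
    fun x _ => (Real.hasDerivAt_exp x).hasDerivWithinAt
  have hi : Set.InjOn Real.exp (Set.univ : Set ℝ) := Real.exp_injective.injOn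
  constructor
  · unfold mellin
    rw [← VMX_img, integral_image_eq_integral_abs_deriv_smul MeasurableSet.univ hd hi]
    rw [Measure.restrict_univ]
    exact integral_congr_ae (Filter.Eventually.of_forall fun t => VMX_pt f z t)
  · unfold MellinConvergent
    rw [← VMX_img, integrableOn_image_iff_integrableOn_abs_deriv_smul MeasurableSet.univ hd hi,
      integrableOn_univ]
    refine integrable_congr (Filter.Eventually.of_forall fun t => VMX_pt f z t)

end Pool.Agent.UN
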